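import Pool.Agent.W845.PM.Base

set_option autoImplicit false
open scoped Classical
open Filter Topology MeasureTheory ProbabilityTheory
open scoped ENNReal NNReal BigOperators

namespace Pool.Agent.W166.PM

open Pool.Agent.W845.PM

noncomputable section

/-- Cauchy-Schwarz for the expectation. -/
theorem EG_abs_le_sqrt (hone : S_ONE) {n : ℕ} {p : ℝ} (h0 : 0 ≤ p) (h1 : p ≤ 1)
    (X : SimpleGraph (Fin n) → ℝ) :
    EG n p (fun G => |X G|) ≤ Real.sqrt (EG n p (fun G => X G ^ 2)) := by
  apply Real.le_sqrt_of_sq_le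
  set c := EG n p (fun G => |X G|) with hc
  have h : 0 ≤ EG n p (fun G => (|X G| - c) ^ 2) := EG_nonneg h0 h1 fun G => sq_nonneg _
  have e : EG n p (fun G => (|X G| - c) ^ 2) = EG n p (fun G => X G ^ 2) - c ^ 2 := by
    have e1 : EG n p (fun G => (|X G| - c) ^ 2) =
        EG n p (fun G => (X G ^ 2 - (2 * c) * |X G|) + c ^ 2) := by
      refine EG_congr fun G => ?_
      have := sq_abs (X G)
      nlinarith [this]
    rw [e1, EG_add n p (fun G => X G ^ 2 - (2 * c) * |X G|) (fun _ => c ^ 2),
      EG_sub n p (fun G => X G ^ 2) (fun G => (2 * c) * |X G|),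
      EG_mul_left n p (2 * c) (fun G => |X G|), EG_const hone, ← hc]
    ring
  rw [e] at h
  linarith

theorem sm : S_ONE → S_COM → S_SM := by
  intro hone hcom n p m f a b hn h0 h1 hm hf hs hab
  have hn0 : (0 : ℝ) < n := by
    have : 0 < n := by omega
    exact_mod_cast this
  set A := EG n p (fun G => f G a * f G b) with hA
  set B := EG n p (fun G => f G a) with hB
  -- transport by permutations
  have key1 : ∀ v, EG n p (fun G => f G v) = B := by
    intro v
    have h := hcom n n (Equiv.swap a v).toEmbedding p (fun G => f G a)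
    rw [hB, ← h]
    refine EG_congr fun G => ?_
    have := hs (Equiv.swap a v) G a
    rw [Equiv.swap_apply_left] at this
    exact this.symm
  have key2 : ∀ v w, v ≠ w → EG n p (fun G => f G v * f G w) = A := by
    intro v w hvw
    set τ : Equiv.Perm (Fin n) := Equiv.swap a v with hτ
    set σ : Equiv.Perm (Fin n) := τ.trans (Equiv.swap (τ b) w) with hσ
    have hτa : τ a = v := Equiv.swap_apply_left a v
    have hτb : τ b ≠ v := fun h => hab (τ.injective (hτa.trans h.symm))
    have ha : σ a = v := by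
      rw [hσ, Equiv.trans_apply, hτa]
      exact Equiv.swap_apply_of_ne_of_ne hτb.symm hvw
    have hb : σ b = w := by
      rw [hσ, Equiv.trans_apply]
      exact Equiv.swap_apply_left _ _
    have h := hcom n n σ.toEmbedding p (fun G => f G a * f G b)
    rw [hA, ← h]
    refine EG_congr fun G => ?_
    have e1 := hs σ G a
    have e2 := hs σ G b
    rw [ha] at e1
    rw [hb] at e2
    show f G v * f G w = f (G.comap σ) a * f (G.comap σ) b
    rw [e1, e2]
  have hA1 : |A| ≤ 1 := by
    refine (EG_abs_le h0 h1 _).trans ?_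
    rw [← EG_const hone n p 1]
    refine EG_mono h0 h1 fun G => ?_
    rw [abs_mul]
    exact mul_le_one₀ (hf G a) (abs_nonneg _) (hf G b)
  refine (EG_abs_le_sqrt hone h0 h1 _).trans (Real.sqrt_le_sqrt ?_)
  -- the second moment
  have hsq : EG n p (fun G => (∑ v, f G v) ^ 2) ≤ n + n * (n - 1) * A := by
    have e1 : EG n p (fun G => (∑ v, f G v) ^ 2) =
        ∑ v : Fin n, ∑ w : Fin n, EG n p (fun G => f G v * f G w) := by
      rw [← Finset.sum_congr rfl fun v _ => EG_sum n p Finset.univ (fun w G => f G v * f G w)]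
      rw [← EG_sum]
      refine EG_congr fun G => ?_
      rw [sq, Finset.sum_mul_sum]
    rw [e1]
    have e2 : ∀ v : Fin n, ∑ w : Fin n, EG n p (fun G => f G v * f G w) ≤ 1 + (n - 1) * A := by
      intro v
      rw [← Finset.add_sum_erase _ _ (Finset.mem_univ v)]
      refine add_le_add ?_ (le_of_eq ?_)
      · rw [← EG_const hone n p 1]
        refine EG_mono h0 h1 fun G => ?_
        have := abs_le.1 (hf G v)
        nlinarith [this.1, this.2]
      · rw [Finset.sum_congr rfl fun w hw => key2 v w (Finset.ne_of_mem_erase hw).symm]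
        rw [Finset.sum_const, Finset.card_erase_of_mem (Finset.mem_univ v), Finset.card_univ,
          Fintype.card_fin, nsmul_eq_mul, Nat.cast_sub (by omega : 1 ≤ n)]
        simp
    refine (Finset.sum_le_sum fun v _ => e2 v).trans (le_of_eq ?_)
    rw [Finset.sum_const, Finset.card_univ, Fintype.card_fin, nsmul_eq_mul]
    ring
  have hlin : EG n p (fun G => ∑ v, f G v) = n * B := by
    rw [EG_sum n p Finset.univ (fun v G => f G v), Finset.sum_congr rfl fun v _ => key1 v]
    simp
  have hX : EG n p (fun G => ((∑ v, f G v) / n - m) ^ 2) =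
      EG n p (fun G => (∑ v, f G v) ^ 2) / n ^ 2 - 2 * m * B + m ^ 2 := by
    have e1 : EG n p (fun G => ((∑ v, f G v) / n - m) ^ 2) =
        EG n p (fun G => ((∑ v, f G v) ^ 2 / (n : ℝ) ^ 2 - (2 * m / n) * (∑ v, f G v)) + m ^ 2) := by
      refine EG_congr fun G => ?_
      field_simp
      ring
    rw [e1, EG_add n p (fun G => (∑ v, f G v) ^ 2 / (n : ℝ) ^ 2 - (2 * m / n) * (∑ v, f G v))
        (fun _ => m ^ 2),
      EG_sub n p (fun G => (∑ v, f G v) ^ 2 / (n : ℝ) ^ 2) (fun G => (2 * m / n) * (∑ v, f G v)),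
      EG_mul_left n p (2 * m / n) (fun G => ∑ v, f G v), hlin, EG_const hone,
      EG_div n p ((n : ℝ) ^ 2) (fun G => (∑ v, f G v) ^ 2)]
    field_simp
  rw [hX]
  have h2 : EG n p (fun G => (∑ v, f G v) ^ 2) / n ^ 2 ≤ 1 / n + A - A / n := by
    rw [div_le_iff₀ (by positivity)]
    refine hsq.trans (le_of_eq ?_)
    field_simp
    ring
  have h3 : -(A / n) ≤ 1 / n := by
    rw [← neg_div]
    exact div_le_div_of_nonneg_right (by linarith [(abs_le.1 hA1).1]) hn0.le
  have h4 : A - m ^ 2 ≤ |A - m ^ 2| := le_abs_self _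
  have h5 : -(2 * m * (B - m)) ≤ 2 * |B - m| := by
    have : |m * (B - m)| ≤ |B - m| := by
      rw [abs_mul]
      exact mul_le_of_le_one_left (abs_nonneg _) hm
    have := (abs_le.1 this).1
    linarith
  have h6 : (2 : ℝ) / n = 1 / n + 1 / n := by ring
  rw [h6]
  nlinarith [h2, h3, h4, h5]

end

end Pool.Agent.W166.PM
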